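import Mathlib

/-!
# A non-extremal, non-resolvable-parameter triple array: `(16 × 25, 100)`

An explicit `(16 × 25, 100)`-triple array.  It was found by a computer search for arrays that are
invariant under a group isomorphic to `ℤ/5 × ℤ/5` acting regularly on the columns.
-/

namespace Pool.Agent.Results.MP_a8dd7a_co.TripleArray16x25

open Finset

/-- The set of symbols occurring in row `i`. -/
def rowSet {r c v : ℕ} (A : Fin r → Fin c → Fin v) (i : Fin r) : Finset (Fin v) :=
  univ.image fun j => A i j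

/-- The set of symbols occurring in column `j`. -/
def colSet {r c v : ℕ} (A : Fin r → Fin c → Fin v) (j : Fin c) : Finset (Fin v) :=
  univ.image fun i => A i j

/-- `A` is an `(r × c, v)`-triple array: an `r × c` array of `v` symbols such that no symbol
occurs twice in a row or in a column, every symbol occurs the same number `k` of times, any two
distinct rows have the same number of common symbols, any two distinct columns have the same
number of common symbols, and any row and any column have the same number of common symbols. -/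
structure IsTripleArray {r c v : ℕ} (A : Fin r → Fin c → Fin v) : Prop where
  row_injective : ∀ i, Function.Injective fun j => A i j
  col_injective : ∀ j, Function.Injective fun i => A i j
  replication : ∃ k : ℕ, r * c = k * v ∧
    ∀ s, (univ.filter fun x : Fin r × Fin c => A x.1 x.2 = s).card = k
  row_row : ∃ l : ℕ, ∀ i i', i ≠ i' → (rowSet A i ∩ rowSet A i').card = l
  col_col : ∃ l : ℕ, ∀ j j', j ≠ j' → (colSet A j ∩ colSet A j').card = l
  row_col : ∃ l : ℕ, ∀ i j, (rowSet A i ∩ colSet A j).card = l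

/-- The entries of the array. -/
def data : List (List ℕ) :=
  [[70, 71, 72, 73, 74, 17, 18, 19, 15, 16, 41, 42, 43, 44, 40, 64, 60, 61, 62, 63, 35, 36, 37, 38, 39],
   [40, 41, 42, 43, 44, 50, 51, 52, 53, 54, 22, 23, 24, 20, 21, 46, 47, 48, 49, 45, 69, 65, 66, 67, 68],
   [74, 70, 71, 72, 73, 45, 46, 47, 48, 49, 55, 56, 57, 58, 59, 2, 3, 4, 0, 1, 26, 27, 28, 29, 25],
   [31, 32, 33, 34, 30, 54, 50, 51, 52, 53, 25, 26, 27, 28, 29, 60, 61, 62, 63, 64, 7, 8, 9, 5, 6],
   [12, 13, 14, 10, 11, 36, 37, 38, 39, 35, 59, 55, 56, 57, 58, 30, 31, 32, 33, 34, 65, 66, 67, 68, 69],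
   [14, 54, 99, 96, 50, 19, 59, 79, 76, 55, 24, 64, 84, 81, 60, 4, 69, 89, 86, 65, 9, 74, 94, 91, 70],
   [51, 10, 50, 95, 97, 56, 15, 55, 75, 77, 61, 20, 60, 80, 82, 66, 0, 65, 85, 87, 71, 5, 70, 90, 92],
   [98, 52, 11, 51, 96, 78, 57, 16, 56, 76, 83, 62, 21, 61, 81, 88, 67, 1, 66, 86, 93, 72, 6, 71, 91],
   [97, 99, 53, 12, 52, 77, 79, 58, 17, 57, 82, 84, 63, 22, 62, 87, 89, 68, 2, 67, 92, 94, 73, 7, 72],
   [53, 98, 95, 54, 13, 58, 78, 75, 59, 18, 63, 83, 80, 64, 23, 68, 88, 85, 69, 3, 73, 93, 90, 74, 8],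
   [28, 84, 21, 38, 91, 88, 0, 42, 95, 32, 9, 46, 79, 36, 92, 25, 83, 40, 96, 13, 87, 49, 75, 17, 34],
   [92, 29, 80, 22, 39, 33, 89, 1, 43, 96, 93, 5, 47, 75, 37, 14, 26, 84, 41, 97, 30, 88, 45, 76, 18],
   [35, 93, 25, 81, 23, 97, 34, 85, 2, 44, 38, 94, 6, 48, 76, 98, 10, 27, 80, 42, 19, 31, 89, 46, 77],
   [24, 36, 94, 26, 82, 40, 98, 30, 86, 3, 77, 39, 90, 7, 49, 43, 99, 11, 28, 81, 78, 15, 32, 85, 47],
   [83, 20, 37, 90, 27, 4, 41, 99, 31, 87, 45, 78, 35, 91, 8, 82, 44, 95, 12, 29, 48, 79, 16, 33, 86],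
   [1, 2, 3, 4, 0, 6, 7, 8, 9, 5, 11, 12, 13, 14, 10, 16, 17, 18, 19, 15, 21, 22, 23, 24, 20]]

/-- Entry `(i, j)` as a natural number. -/
def ent (i j : ℕ) : ℕ := (data.getD i []).getD j 0

theorem ent_lt : ∀ i : Fin 16, ∀ j : Fin 25, ent i j < 100 := by decide +kernel

/-- The array. -/
def arr (i : Fin 16) (j : Fin 25) : Fin 100 := ⟨ent i j, ent_lt i j⟩

/-- Bit mask of a row. -/
def rowMask (i : ℕ) : ℕ := (data.getD i []).foldl (fun a x => a ||| 2 ^ x) 0

/-- Bit mask of a column. -/
def colMask (j : ℕ) : ℕ := data.foldl (fun a l => a ||| 2 ^ (l.getD j 0)) 0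

/-- Number of common bits below 100. -/
def common (a b : ℕ) : ℕ := ((range 100).filter fun s => (a &&& b).testBit s = true).card

theorem mem_row : ∀ i : Fin 16, ∀ s : Fin 100,
    (∃ j : Fin 25, ent i j = s) ↔ (rowMask i).testBit s = true := by decide +kernel

theorem mem_col : ∀ j : Fin 25, ∀ s : Fin 100,
    (∃ i : Fin 16, ent i j = s) ↔ (colMask j).testBit s = true := by decide +kernel

theorem row_inj : ∀ i : Fin 16, ∀ j j' : Fin 25, ent i j = ent i j' → j = j' := by
  decide +kernel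

theorem col_inj : ∀ j : Fin 25, ∀ i i' : Fin 16, ent i j = ent i' j → i = i' := by
  decide +kernel

theorem rr : ∀ i i' : Fin 16, i ≠ i' → common (rowMask i) (rowMask i') = 5 := by decide +kernel

theorem cc : ∀ j j' : Fin 25, j ≠ j' → common (colMask j) (colMask j') = 2 := by decide +kernel

theorem rc : ∀ (i : Fin 16) (j : Fin 25), common (rowMask i) (colMask j) = 4 := by
  decide +kernel

theorem rep : ∀ s : Fin 100,
    (univ.filter fun x : Fin 16 × Fin 25 => ent x.1 x.2 = s).card = 4 := by decide +kernel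

theorem card_inter (S T : Finset (Fin 100)) (a b : ℕ)
    (hS : ∀ s : Fin 100, s ∈ S ↔ a.testBit s = true)
    (hT : ∀ s : Fin 100, s ∈ T ↔ b.testBit s = true) : (S ∩ T).card = common a b := by
  have h1 : S ∩ T = univ.filter fun s : Fin 100 => (a &&& b).testBit s = true := by
    ext s
    simp only [mem_inter, hS, hT, mem_filter, mem_univ, true_and, Nat.testBit_and,
      Bool.and_eq_true]
  rw [h1]
  unfold common
  rw [card_filter, card_filter,
    Fin.sum_univ_eq_sum_range (fun s => if (a &&& b).testBit s = true then 1 else 0)]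

theorem mem_rowSet (i : Fin 16) (s : Fin 100) :
    s ∈ rowSet arr i ↔ (rowMask i).testBit s = true := by
  rw [← mem_row i s]
  simp only [rowSet, mem_image, mem_univ, true_and, arr, Fin.ext_iff]

theorem mem_colSet (j : Fin 25) (s : Fin 100) :
    s ∈ colSet arr j ↔ (colMask j).testBit s = true := by
  rw [← mem_col j s]
  simp only [colSet, mem_image, mem_univ, true_and, arr, Fin.ext_iff]

/-- There is a `(16 × 25, 100)`-triple array. -/
theorem result : ∃ A : Fin 16 → Fin 25 → Fin 100, IsTripleArray A := by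
  refine ⟨arr, ?_, ?_, ⟨4, rfl, ?_⟩, ⟨5, ?_⟩, ⟨2, ?_⟩, ⟨4, ?_⟩⟩
  · intro i j j' h
    exact row_inj i j j' (congrArg Fin.val h)
  · intro j i i' h
    exact col_inj j i i' (congrArg Fin.val h)
  · intro s
    rw [← rep s]
    congr 1
    ext x
    simp only [mem_filter, mem_univ, true_and, arr, Fin.ext_iff]
  · intro i i' h
    rw [card_inter _ _ _ _ (mem_rowSet i) (mem_rowSet i')]
    exact rr i i' h
  · intro j j' h
    rw [card_inter _ _ _ _ (mem_colSet j) (mem_colSet j')]
    exact cc j j' h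
  · intro i j
    rw [card_inter _ _ _ _ (mem_rowSet i) (mem_colSet j)]
    exact rc i j

end Pool.Agent.Results.MP_a8dd7a_co.TripleArray16x25
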